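import Mathlib

/-!
# Infinitely many triples with three consecutive multiplicatively dependent shifts

For every `k ≥ 3` the triple `(2, 2 ^ k - 2, 2 ^ k * (2 ^ k - 2))` is admissible:

* `2 ^ k * (2 ^ k - 2)` is the product of a power of `2` and of `2 ^ k - 2`;
* after adding `1` the third entry is the square of the second one;
* after adding `2` the first two entries are `4` and `2 ^ k`.
-/

set_option autoImplicit false

namespace Pool.Agent.Results.MP_0e3340_nt.InfinitelyManyTriples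

/-- The nonzero integers `x, y, z` are multiplicatively dependent: there are integers `k, l, m`, not
all zero, with `x ^ k * y ^ l * z ^ m = 1`. -/
def MultDep (x y z : ℤ) : Prop :=
  x ≠ 0 ∧ y ≠ 0 ∧ z ≠ 0 ∧ ∃ k l m : ℤ, ¬ (k = 0 ∧ l = 0 ∧ m = 0) ∧
    (x : ℚ) ^ k * (y : ℚ) ^ l * (z : ℚ) ^ m = 1

/-- The triple `(a, b, c)` is admissible: `a, b, c` are pairwise distinct integers larger than `1`,
`2` and `8` are not both among them, and the triples `(a, b, c) + i` are multiplicatively dependent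
for `i = 0, 1, 2`. -/
def Admissible (a b c : ℤ) : Prop :=
  (1 < a ∧ 1 < b ∧ 1 < c) ∧ (a ≠ b ∧ b ≠ c ∧ a ≠ c) ∧ ¬ ({2, 8} : Set ℤ) ⊆ {a, b, c} ∧
    MultDep a b c ∧ MultDep (a + 1) (b + 1) (c + 1) ∧ MultDep (a + 2) (b + 2) (c + 2)

/-- The members of the family. -/
theorem family (k : ℕ) (hk : 3 ≤ k) :
    (2 : ℤ) < 2 ^ k - 2 ∧ (2 : ℤ) ^ k - 2 < 2 ^ k * (2 ^ k - 2) ∧
      Admissible 2 (2 ^ k - 2) (2 ^ k * (2 ^ k - 2)) := by
  have h8 : (8 : ℤ) ≤ 2 ^ k := by
    calc (8 : ℤ) = 2 ^ 3 := by norm_num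
      _ ≤ 2 ^ k := pow_le_pow_right₀ (by norm_num) hk
  have hne : (2 : ℤ) ^ k ≠ 10 := by
    intro h
    have h1 : (5 : ℤ) ∣ 2 ^ k := ⟨2, by rw [h]; norm_num⟩
    have h2 : (5 : ℤ) ∣ 2 := Int.Prime.dvd_pow' (by norm_num) (by exact_mod_cast h1)
    omega
  set u : ℤ := 2 ^ k with hu
  have h1 : (2 : ℤ) < u - 2 := by linarith
  have h2 : u - 2 < u * (u - 2) := by nlinarith
  have hq : (u : ℚ) = 2 ^ k := by rw [hu]; push_cast; rfl
  have hu0 : (u : ℚ) ≠ 0 := by rw [hq]; positivity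
  have hu2 : ((u : ℚ) - 2) ≠ 0 := by
    have : (0 : ℤ) < u - 2 := by linarith
    exact_mod_cast this.ne'
  have hu1 : ((u : ℚ) - 1) ≠ 0 := by
    have : (0 : ℤ) < u - 1 := by linarith
    exact_mod_cast this.ne'
  refine ⟨h1, h2, ⟨by norm_num, by linarith, by linarith⟩,
    ⟨by linarith, by linarith, by linarith⟩, ?_, ?_, ?_, ?_⟩
  · intro h
    have h8' : (8 : ℤ) ∈ ({2, u - 2, u * (u - 2)} : Set ℤ) := h (by simp)
    simp only [Set.mem_insert_iff, Set.mem_singleton_iff] at h8'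
    rcases h8' with h' | h' | h'
    · norm_num at h'
    · exact hne (by linarith)
    · nlinarith
  · refine ⟨by norm_num, by linarith, by nlinarith, k, 1, -1, by simp, ?_⟩
    push_cast
    rw [zpow_natCast, ← hq, zpow_one, zpow_neg, zpow_one]
    field_simp
  · refine ⟨by norm_num, by linarith, by nlinarith, 0, 2, -1, by simp, ?_⟩
    push_cast
    have e : ((u : ℚ) * (u - 2) + 1) = (u - 1) ^ 2 := by ring
    have e' : ((u : ℚ) - 2 + 1) = u - 1 := by ring
    have h2' : ((u : ℚ) - 1) ^ (2 : ℤ) = (u - 1) ^ 2 := by norm_cast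
    rw [e, e', h2', zpow_neg, zpow_one]
    simp only [one_mul]
    exact mul_inv_cancel₀ (pow_ne_zero _ hu1)
  · refine ⟨by norm_num, by linarith, by nlinarith, k, -2, 0, by simp, ?_⟩
    push_cast
    have e' : ((u : ℚ) - 2 + 2) = u := by ring
    have e4 : (4 : ℚ) ^ (k : ℤ) = (u : ℚ) ^ 2 := by
      rw [zpow_natCast, hq, ← pow_mul, mul_comm k 2, pow_mul]
      norm_num
    have h2' : (u : ℚ) ^ (-2 : ℤ) = ((u : ℚ) ^ 2)⁻¹ := by
      rw [zpow_neg]; norm_cast
    rw [e', e4, h2', zpow_zero, mul_one]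
    exact mul_inv_cancel₀ (pow_ne_zero _ hu0)

/-- **There are infinitely many admissible triples** `(a, b, c)` with `a < b < c`. -/
theorem result :
    {t : ℤ × ℤ × ℤ | t.1 < t.2.1 ∧ t.2.1 < t.2.2 ∧ Admissible t.1 t.2.1 t.2.2}.Infinite := by
  refine Set.infinite_of_injective_forall_mem
    (f := fun k : ℕ => ((2 : ℤ), (2 : ℤ) ^ (k + 3) - 2, (2 : ℤ) ^ (k + 3) * (2 ^ (k + 3) - 2))) ?_ ?_
  · intro k l h
    simp only [Prod.mk.injEq, true_and] at h
    have h1 : (2 : ℤ) ^ (k + 3) = 2 ^ (l + 3) := by linarith [h.1]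
    have h2 : k + 3 = l + 3 := by
      have := Int.pow_right_injective (by norm_num : 1 < (2 : ℤ).natAbs) h1
      exact this
    omega
  · intro k
    exact family (k + 3) (by omega)

end Pool.Agent.Results.MP_0e3340_nt.InfinitelyManyTriples
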